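import Pool.Agent.Helper435.EIC.Defs

/-! Basic facts on protocol trees. -/

namespace Pool.Agent.Helper435.EIC

open Finset

namespace Prot

variable {X Y O : Type}

lemma sum_alice (p : X → unitInterval) (π₀ π₁ : Prot X Y O)
    (g : (alice p π₀ π₁).Transcript → ℝ) :
    ∑ t, g t = (∑ t : π₀.Transcript, g (Sum.inl t)) + ∑ t : π₁.Transcript, g (Sum.inr t) :=
  Fintype.sum_sum_type (α₁ := π₀.Transcript) (α₂ := π₁.Transcript) g

lemma sum_bob (p : Y → unitInterval) (π₀ π₁ : Prot X Y O)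
    (g : (bob p π₀ π₁).Transcript → ℝ) :
    ∑ t, g t = (∑ t : π₀.Transcript, g (Sum.inl t)) + ∑ t : π₁.Transcript, g (Sum.inr t) :=
  Fintype.sum_sum_type (α₁ := π₀.Transcript) (α₂ := π₁.Transcript) g

lemma sum_coin (p : unitInterval) (π₀ π₁ : Prot X Y O)
    (g : (coin p π₀ π₁).Transcript → ℝ) :
    ∑ t, g t = (∑ t : π₀.Transcript, g (Sum.inl t)) + ∑ t : π₁.Transcript, g (Sum.inr t) :=
  Fintype.sum_sum_type (α₁ := π₀.Transcript) (α₂ := π₁.Transcript) g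

lemma sum_out (o : O) (g : (out o : Prot X Y O).Transcript → ℝ) :
    ∑ t, g t = g () :=
  Fintype.sum_unique (ι := Unit) g

lemma prob_nonneg (π : Prot X Y O) (t : π.Transcript) (x : X) (y : Y) :
    0 ≤ π.prob t x y := by
  induction π with
  | out o => exact zero_le_one
  | alice p π₀ π₁ h₀ h₁ =>
    rcases t with t | t
    · exact mul_nonneg (by have := (p x).2.2; linarith) (h₀ t)
    · exact mul_nonneg (p x).2.1 (h₁ t)
  | bob p π₀ π₁ h₀ h₁ =>
    rcases t with t | t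
    · exact mul_nonneg (by have := (p y).2.2; linarith) (h₀ t)
    · exact mul_nonneg (p y).2.1 (h₁ t)
  | coin p π₀ π₁ h₀ h₁ =>
    rcases t with t | t
    · exact mul_nonneg (by have := p.2.2; linarith) (h₀ t)
    · exact mul_nonneg p.2.1 (h₁ t)

lemma sum_prob (π : Prot X Y O) (x : X) (y : Y) : ∑ t, π.prob t x y = 1 := by
  induction π with
  | out o => rw [sum_out]; rfl
  | alice p π₀ π₁ h₀ h₁ =>
    rw [sum_alice]
    simp only [prob]
    rw [← Finset.mul_sum, ← Finset.mul_sum, h₀, h₁]; ring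
  | bob p π₀ π₁ h₀ h₁ =>
    rw [sum_bob]
    simp only [prob]
    rw [← Finset.mul_sum, ← Finset.mul_sum, h₀, h₁]; ring
  | coin p π₀ π₁ h₀ h₁ =>
    rw [sum_coin]
    simp only [prob]
    rw [← Finset.mul_sum, ← Finset.mul_sum, h₀, h₁]; ring

/-- The rectangle property. -/
lemma exists_rect (π : Prot X Y O) : ∃ (α : π.Transcript → X → ℝ) (β : π.Transcript → Y → ℝ),
    (∀ t x, 0 ≤ α t x) ∧ (∀ t y, 0 ≤ β t y) ∧ ∀ t x y, π.prob t x y = α t x * β t y := by
  induction π with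
  | out o =>
    exact ⟨fun _ _ => 1, fun _ _ => 1, fun _ _ => zero_le_one, fun _ _ => zero_le_one,
      fun _ _ _ => (one_mul 1).symm⟩
  | alice p π₀ π₁ h₀ h₁ =>
    obtain ⟨α₀, β₀, ha₀, hb₀, h₀⟩ := h₀
    obtain ⟨α₁, β₁, ha₁, hb₁, h₁⟩ := h₁
    refine ⟨Sum.elim (fun t x => (1 - (p x : ℝ)) * α₀ t x) (fun t x => (p x : ℝ) * α₁ t x),
      Sum.elim β₀ β₁, ?_, ?_, ?_⟩
    · rintro (t | t) x
      · exact mul_nonneg (by have := (p x).2.2; linarith) (ha₀ t x)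
      · exact mul_nonneg (p x).2.1 (ha₁ t x)
    · rintro (t | t) y
      · exact hb₀ t y
      · exact hb₁ t y
    · rintro (t | t) x y
      · simp only [prob, Sum.elim_inl, h₀]; ring
      · simp only [prob, Sum.elim_inr, h₁]; ring
  | bob p π₀ π₁ h₀ h₁ =>
    obtain ⟨α₀, β₀, ha₀, hb₀, h₀⟩ := h₀
    obtain ⟨α₁, β₁, ha₁, hb₁, h₁⟩ := h₁
    refine ⟨Sum.elim α₀ α₁,
      Sum.elim (fun t y => (1 - (p y : ℝ)) * β₀ t y) (fun t y => (p y : ℝ) * β₁ t y), ?_, ?_, ?_⟩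
    · rintro (t | t) x
      · exact ha₀ t x
      · exact ha₁ t x
    · rintro (t | t) y
      · exact mul_nonneg (by have := (p y).2.2; linarith) (hb₀ t y)
      · exact mul_nonneg (p y).2.1 (hb₁ t y)
    · rintro (t | t) x y
      · simp only [prob, Sum.elim_inl, h₀]; ring
      · simp only [prob, Sum.elim_inr, h₁]; ring
  | coin p π₀ π₁ h₀ h₁ =>
    obtain ⟨α₀, β₀, ha₀, hb₀, h₀⟩ := h₀
    obtain ⟨α₁, β₁, ha₁, hb₁, h₁⟩ := h₁
    refine ⟨Sum.elim α₀ α₁,
      Sum.elim (fun t y => (1 - (p : ℝ)) * β₀ t y) (fun t y => (p : ℝ) * β₁ t y), ?_, ?_, ?_⟩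
    · rintro (t | t) x
      · exact ha₀ t x
      · exact ha₁ t x
    · rintro (t | t) y
      · exact mul_nonneg (by have := p.2.2; linarith) (hb₀ t y)
      · exact mul_nonneg p.2.1 (hb₁ t y)
    · rintro (t | t) x y
      · simp only [prob, Sum.elim_inl, h₀]; ring
      · simp only [prob, Sum.elim_inr, h₁]; ring

/-- Expected number of bits on a fixed input. -/
noncomputable def avg (π : Prot X Y O) (x : X) (y : Y) : ℝ :=
  ∑ t : π.Transcript, π.prob t x y * (π.bits t : ℝ)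

lemma avg_nonneg (π : Prot X Y O) (x : X) (y : Y) : 0 ≤ π.avg x y :=
  Finset.sum_nonneg fun t _ => mul_nonneg (π.prob_nonneg t x y) (Nat.cast_nonneg _)

lemma avg_out (o : O) (x : X) (y : Y) : (out o : Prot X Y O).avg x y = 0 := by
  unfold avg
  rw [sum_out]
  simp [bits]

lemma avg_alice (p : X → unitInterval) (π₀ π₁ : Prot X Y O) (x : X) (y : Y) :
    (alice p π₀ π₁).avg x y = 1 + ((1 - (p x : ℝ)) * π₀.avg x y + (p x : ℝ) * π₁.avg x y) := by
  unfold avg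
  rw [sum_alice]
  simp only [prob, bits]
  have h₀ := π₀.sum_prob x y
  have h₁ := π₁.sum_prob x y
  have e₀ : ∑ t : π₀.Transcript, (1 - (p x : ℝ)) * π₀.prob t x y * ((1 + π₀.bits t : ℕ) : ℝ)
      = (1 - (p x : ℝ)) * (1 + ∑ t : π₀.Transcript, π₀.prob t x y * (π₀.bits t : ℝ)) := by
    rw [← h₀, ← Finset.sum_add_distrib, Finset.mul_sum]
    refine Finset.sum_congr rfl fun t _ => ?_
    push_cast; ring
  have e₁ : ∑ t : π₁.Transcript, (p x : ℝ) * π₁.prob t x y * ((1 + π₁.bits t : ℕ) : ℝ)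
      = (p x : ℝ) * (1 + ∑ t : π₁.Transcript, π₁.prob t x y * (π₁.bits t : ℝ)) := by
    rw [← h₁, ← Finset.sum_add_distrib, Finset.mul_sum]
    refine Finset.sum_congr rfl fun t _ => ?_
    push_cast; ring
  rw [e₀, e₁]; ring

lemma avg_bob (p : Y → unitInterval) (π₀ π₁ : Prot X Y O) (x : X) (y : Y) :
    (bob p π₀ π₁).avg x y = 1 + ((1 - (p y : ℝ)) * π₀.avg x y + (p y : ℝ) * π₁.avg x y) := by
  unfold avg
  rw [sum_bob]
  simp only [prob, bits]
  have h₀ := π₀.sum_prob x y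
  have h₁ := π₁.sum_prob x y
  have e₀ : ∑ t : π₀.Transcript, (1 - (p y : ℝ)) * π₀.prob t x y * ((1 + π₀.bits t : ℕ) : ℝ)
      = (1 - (p y : ℝ)) * (1 + ∑ t : π₀.Transcript, π₀.prob t x y * (π₀.bits t : ℝ)) := by
    rw [← h₀, ← Finset.sum_add_distrib, Finset.mul_sum]
    refine Finset.sum_congr rfl fun t _ => ?_
    push_cast; ring
  have e₁ : ∑ t : π₁.Transcript, (p y : ℝ) * π₁.prob t x y * ((1 + π₁.bits t : ℕ) : ℝ)
      = (p y : ℝ) * (1 + ∑ t : π₁.Transcript, π₁.prob t x y * (π₁.bits t : ℝ)) := by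
    rw [← h₁, ← Finset.sum_add_distrib, Finset.mul_sum]
    refine Finset.sum_congr rfl fun t _ => ?_
    push_cast; ring
  rw [e₀, e₁]; ring

end Prot

lemma expBits_eq {X Y O : Type} [Fintype X] [Fintype Y] (π : Prot X Y O) (μ : X × Y → ℝ) :
    expBits π μ = ∑ z : X × Y, μ z * π.avg z.1 z.2 := rfl

end Pool.Agent.Helper435.EIC
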