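import Mathlib

/-!
# Two-party protocols, external information, expected communication

Protocol trees over input sets `X` (Alice) and `Y` (Bob) with outputs in `O`.
-/

namespace Pool.Agent.Helper435.EIC

open Finset

/-- A two-party protocol tree.  At a leaf `out o` the protocol stops and outputs `o`.
At a node `alice p π₀ π₁` Alice, who holds `x`, sends one bit: using her private randomness she
sends `1` with probability `p x` and `0` otherwise; the protocol then continues with `π₁`
(after a `1`) or `π₀` (after a `0`).  `bob q π₀ π₁` is the same for Bob, who holds `y`.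
At a node `coin r π₀ π₁` both parties see a public coin, equal to `1` with probability `r`. -/
inductive Prot (X Y O : Type) : Type
  | out (o : O) : Prot X Y O
  | alice (p : X → unitInterval) (π₀ π₁ : Prot X Y O) : Prot X Y O
  | bob (q : Y → unitInterval) (π₀ π₁ : Prot X Y O) : Prot X Y O
  | coin (r : unitInterval) (π₀ π₁ : Prot X Y O) : Prot X Y O

namespace Prot

variable {X Y O : Type}

/-- The transcripts of a protocol (the bits sent together with the public coins), i.e. the
paths from the root to a leaf: `Sum.inl` records a `0` and `Sum.inr` records a `1`. -/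
def Transcript : Prot X Y O → Type
  | out _ => Unit
  | alice _ π₀ π₁ => Transcript π₀ ⊕ Transcript π₁
  | bob _ π₀ π₁ => Transcript π₀ ⊕ Transcript π₁
  | coin _ π₀ π₁ => Transcript π₀ ⊕ Transcript π₁

/-- A protocol has finitely many transcripts. -/
instance instFintypeTranscript : (π : Prot X Y O) → Fintype π.Transcript
  | out _ => inferInstanceAs (Fintype Unit)
  | alice _ π₀ π₁ =>
      @instFintypeSum _ _ (instFintypeTranscript π₀) (instFintypeTranscript π₁)
  | bob _ π₀ π₁ =>
      @instFintypeSum _ _ (instFintypeTranscript π₀) (instFintypeTranscript π₁)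
  | coin _ π₀ π₁ =>
      @instFintypeSum _ _ (instFintypeTranscript π₀) (instFintypeTranscript π₁)

/-- `π.prob t x y` is the probability of the transcript `t` when the inputs are `x` and `y`. -/
noncomputable def prob : (π : Prot X Y O) → π.Transcript → X → Y → ℝ
  | out _, _, _, _ => 1
  | alice p π₀ _, Sum.inl t, x, y => (1 - (p x : ℝ)) * prob π₀ t x y
  | alice p _ π₁, Sum.inr t, x, y => (p x : ℝ) * prob π₁ t x y
  | bob q π₀ _, Sum.inl t, x, y => (1 - (q y : ℝ)) * prob π₀ t x y
  | bob q _ π₁, Sum.inr t, x, y => (q y : ℝ) * prob π₁ t x y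
  | coin r π₀ _, Sum.inl t, x, y => (1 - (r : ℝ)) * prob π₀ t x y
  | coin r _ π₁, Sum.inr t, x, y => (r : ℝ) * prob π₁ t x y

/-- The output of the protocol, read off the transcript. -/
def output : (π : Prot X Y O) → π.Transcript → O
  | out o, _ => o
  | alice _ π₀ _, Sum.inl t => output π₀ t
  | alice _ _ π₁, Sum.inr t => output π₁ t
  | bob _ π₀ _, Sum.inl t => output π₀ t
  | bob _ _ π₁, Sum.inr t => output π₁ t
  | coin _ π₀ _, Sum.inl t => output π₀ t
  | coin _ _ π₁, Sum.inr t => output π₁ t

/-- The number of bits exchanged by Alice and Bob (public coins are not counted). -/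
def bits : (π : Prot X Y O) → π.Transcript → ℕ
  | out _, _ => 0
  | alice _ π₀ _, Sum.inl t => 1 + bits π₀ t
  | alice _ _ π₁, Sum.inr t => 1 + bits π₁ t
  | bob _ π₀ _, Sum.inl t => 1 + bits π₀ t
  | bob _ _ π₁, Sum.inr t => 1 + bits π₁ t
  | coin _ π₀ _, Sum.inl t => bits π₀ t
  | coin _ _ π₁, Sum.inr t => bits π₁ t

/-- The protocol is zero-error for `F`: on every input `(x, y)`, every transcript that has
positive probability ends with the output `F x y`. -/
def ZeroError (π : Prot X Y O) (F : X → Y → O) : Prop :=
  ∀ x y t, π.prob t x y ≠ 0 → π.output t = F x y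

/-- The protocol is deterministic: there are no public coins, and each bit sent is a function
of the sender's input and of the bits sent before. -/
def Deterministic : Prot X Y O → Prop
  | out _ => True
  | alice p π₀ π₁ => (∀ x, p x = 0 ∨ p x = 1) ∧ Deterministic π₀ ∧ Deterministic π₁
  | bob q π₀ π₁ => (∀ y, q y = 0 ∨ q y = 1) ∧ Deterministic π₀ ∧ Deterministic π₁
  | coin _ _ _ => False

end Prot

/-- Shannon mutual information (in bits) of a pair of finite random variables with joint
law `J`. -/
noncomputable def mutualInfo {T Z : Type} [Fintype T] [Fintype Z] (J : T → Z → ℝ) : ℝ :=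
  ∑ t, ∑ z, J t z * Real.logb 2 (J t z / ((∑ z', J t z') * (∑ t', J t' z)))

variable {X Y O : Type} [Fintype X] [Fintype Y]

/-- The external information cost `I(Π ; XY)`, in bits, of the protocol `π` when the inputs
`(X, Y)` have law `μ`; here `Π` is the transcript, including the public coins. -/
noncomputable def extInfo (π : Prot X Y O) (μ : X × Y → ℝ) : ℝ :=
  mutualInfo (fun (t : π.Transcript) (z : X × Y) => μ z * π.prob t z.1 z.2)

/-- The expected number of bits exchanged by the protocol `π` when the inputs have law `μ`. -/
noncomputable def expBits (π : Prot X Y O) (μ : X × Y → ℝ) : ℝ :=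
  ∑ z : X × Y, μ z * ∑ t : π.Transcript, π.prob t z.1 z.2 * (π.bits t : ℝ)

/-- The zero-error external information complexity of `F` under `μ`. -/
noncomputable def ICext (F : X → Y → O) (μ : X × Y → ℝ) : ℝ :=
  sInf {I : ℝ | ∃ π : Prot X Y O, π.ZeroError F ∧ I = extInfo π μ}

/-- The expected communication complexity of `F` under `μ`, for zero-error protocols (private
and public randomness allowed). -/
noncomputable def CCbar (F : X → Y → O) (μ : X × Y → ℝ) : ℝ :=
  sInf {c : ℝ | ∃ π : Prot X Y O, π.ZeroError F ∧ c = expBits π μ}

/-- The expected communication complexity of `F` under `μ`, for deterministic protocols that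
are correct on every input. -/
noncomputable def detCCbar (F : X → Y → O) (μ : X × Y → ℝ) : ℝ :=
  sInf {c : ℝ | ∃ π : Prot X Y O, π.Deterministic ∧ π.ZeroError F ∧ c = expBits π μ}

/-- `F^n`: `F` on `n` coordinates. -/
def powFun {X Y O : Type} (F : X → Y → O) (n : ℕ) : (Fin n → X) → (Fin n → Y) → (Fin n → O) :=
  fun x y i => F (x i) (y i)

/-- `μ^n`: the law of `n` independent pairs with law `μ`, as a law on pairs of vectors. -/
def powLaw {X Y : Type} (μ : X × Y → ℝ) (n : ℕ) : (Fin n → X) × (Fin n → Y) → ℝ :=
  fun z => ∏ i, μ (z.1 i, z.2 i)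

end Pool.Agent.Helper435.EIC
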