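import Mathlib

/-! The inequality at a single leaf. -/

namespace Pool.Agent.Helper435.EIC

open Real

lemma xl {x y : ℝ} (hx : 0 ≤ x) (hy : 0 < y) : x - y ≤ x * Real.log (x / y) := by
  rcases hx.eq_or_lt with rfl | hx
  · simp; exact hy.le
  · have h := Real.one_sub_inv_le_log_of_pos (div_pos hx hy)
    have h2 : x * (1 - (x / y)⁻¹) = x - y := by
      field_simp
    nlinarith [mul_le_mul_of_nonneg_left h hx.le]

/-- `p² log (p²/y) ≥ 2p² - p s - y p / s`. -/
lemma xl2 {p s y : ℝ} (hp : 0 ≤ p) (hs : 0 < s) (hy : 0 < y) :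
    2 * p ^ 2 - p * s - y * p / s ≤ p ^ 2 * Real.log (p ^ 2 / y) := by
  rcases hp.eq_or_lt with rfl | hp
  · simp
  · have h1 := Real.one_sub_inv_le_log_of_pos (div_pos hp hs)
    have hpy : 0 < p * s / y := by positivity
    have h2 := Real.one_sub_inv_le_log_of_pos hpy
    have h3 : Real.log (p ^ 2 / y) = Real.log (p / s) + Real.log (p * s / y) := by
      rw [← Real.log_mul (by positivity) (by positivity)]
      congr 1
      field_simp
    rw [h3]
    have h4 : p ^ 2 * (1 - (p / s)⁻¹) = p ^ 2 - p * s := by field_simp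
    have h5 : p ^ 2 * (1 - (p * s / y)⁻¹) = p ^ 2 - y * p / s := by field_simp
    have hp2 : 0 ≤ p ^ 2 := by positivity
    nlinarith [mul_le_mul_of_nonneg_left h1 hp2, mul_le_mul_of_nonneg_left h2 hp2]

lemma log_two_le : Real.log 2 ≤ 3 / 4 := by
  have := Real.log_two_lt_d9
  linarith

lemma log_two_pos : 0 < Real.log 2 := Real.log_pos (by norm_num)

/-- Normal part, case of label 1. -/
lemma normal1 {p q : ℝ} (hp : 0 ≤ p) (hq : 0 ≤ q) (hM : 0 < (3 * p ^ 2 + q ^ 2) / 8) :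
    Real.log 2 * ((3 * p ^ 2 + q ^ 2) / 8 + (1 / 8) * (p - q) ^ 2) ≤
      (3 / 8) * (p ^ 2 * Real.log (p ^ 2 / ((3 * p ^ 2 + q ^ 2) / 8))) +
      (1 / 8) * (q ^ 2 * Real.log (q ^ 2 / ((3 * p ^ 2 + q ^ 2) / 8))) := by
  set M := (3 * p ^ 2 + q ^ 2) / 8 with hMdef
  have hs : 0 < (3 * p + q) / 4 := by
    by_contra hcon
    have h1 : p = 0 := by linarith
    have h2 : q = 0 := by linarith
    rw [hMdef, h1, h2] at hM
    norm_num at hM
  set s := (3 * p + q) / 4 with hsdef
  have h1 := xl2 hp hs (by positivity : 0 < 2 * M)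
  have h2 := xl2 hq hs (by positivity : 0 < 2 * M)
  have key : ∀ r : ℝ, r ^ 2 * Real.log (r ^ 2 / M) =
      r ^ 2 * Real.log (r ^ 2 / (2 * M)) + r ^ 2 * Real.log 2 := by
    intro r
    by_cases hr : r = 0
    · simp [hr]
    · rw [← mul_add, ← Real.log_mul (by positivity) (by norm_num)]
      congr 2
      field_simp
  rw [key p, key q]
  have h3 : (3 / 8) * (2 * M * p / s) + (1 / 8) * (2 * M * q / s) = M := by
    have : (3 / 8) * (2 * M * p / s) + (1 / 8) * (2 * M * q / s) = M * ((3 * p + q) / 4) / s := by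
      ring
    rw [this, ← hsdef]
    field_simp
  have h4 : Real.log 2 * ((1 / 8) * (p - q) ^ 2) ≤ (3 / 32) * (p - q) ^ 2 := by
    nlinarith [sq_nonneg (p - q), log_two_le]
  have h5 : (3 / 8) * (2 * p ^ 2 - p * s) + (1 / 8) * (2 * q ^ 2 - q * s) - M
      = (3 / 32) * (p - q) ^ 2 := by
    rw [hMdef, hsdef]; ring
  have h6 : (3 / 8) * (p ^ 2 * Real.log 2) + (1 / 8) * (q ^ 2 * Real.log 2) = Real.log 2 * M := by
    rw [hMdef]; ring
  nlinarith

/-- Normal part, case of a leaf only reachable from `c`. -/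
lemma normal3 {p q : ℝ} (hM : 0 < (p ^ 2 + q ^ 2) / 8) :
    Real.log 2 * ((p ^ 2 + q ^ 2) / 8 + (1 / 8) * (p ^ 2 + q ^ 2)) ≤
      (1 / 8) * (p ^ 2 * Real.log (p ^ 2 / ((p ^ 2 + q ^ 2) / 8))) +
      (1 / 8) * (q ^ 2 * Real.log (q ^ 2 / ((p ^ 2 + q ^ 2) / 8))) := by
  set M := (p ^ 2 + q ^ 2) / 8 with hMdef
  have h1 := xl (sq_nonneg p) (by positivity : 0 < 4 * M)
  have h2 := xl (sq_nonneg q) (by positivity : 0 < 4 * M)
  have key : ∀ r : ℝ, r ^ 2 * Real.log (r ^ 2 / M) =
      r ^ 2 * Real.log (r ^ 2 / (4 * M)) + 2 * (r ^ 2 * Real.log 2) := by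
    intro r
    by_cases hr : r = 0
    · simp [hr]
    · have h4 : Real.log (r ^ 2 / M) = Real.log (r ^ 2 / (4 * M)) + Real.log 4 := by
        rw [← Real.log_mul (by positivity) (by norm_num)]
        congr 1
        field_simp
      have h5 : Real.log 4 = 2 * Real.log 2 := by
        rw [show (4 : ℝ) = 2 ^ 2 by norm_num, Real.log_pow]; norm_num
      rw [h4, h5]; ring
  rw [key p, key q]
  have h6 : (1 / 8) * (2 * (p ^ 2 * Real.log 2)) + (1 / 8) * (2 * (q ^ 2 * Real.log 2))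
      = Real.log 2 * (2 * M) := by
    rw [hMdef]; ring
  have h7 : (1 / 8 : ℝ) * (p ^ 2 + q ^ 2) = M := by rw [hMdef]; ring
  rw [h7]
  have h8 : (1 / 8) * (p ^ 2 - 4 * M) + (1 / 8) * (q ^ 2 - 4 * M) = 0 := by
    rw [hMdef]; ring
  nlinarith


lemma split_log {z M P : ℝ} (hz : 0 ≤ z) (hM : 0 < M) (hP : 0 < P) :
    z * Real.log (z / P) = z * Real.log (z / M) + z * Real.log (M / P) := by
  rcases hz.eq_or_lt with rfl | hz
  · simp
  · rw [← mul_add, ← Real.log_mul (by positivity) (by positivity)]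
    congr 2
    field_simp

/-- Gibbs' inequality, one term. -/
lemma gibbs_term {M P a b : ℝ} (hM : 0 ≤ M) (hP : 0 < P) (ha : 0 < a) (hb : 0 < b) :
    a * M - b * P + a * M * Real.log (b / a) ≤ a * (M * Real.log (M / P)) := by
  rcases hM.eq_or_lt with rfl | hM
  · simp; positivity
  · have h := xl (by positivity : 0 ≤ a * M) (by positivity : 0 < b * P)
    have h2 : Real.log (a * M / (b * P)) = Real.log (M / P) - Real.log (b / a) := by
      rw [← Real.log_div (by positivity) (by positivity)]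
      congr 1
      field_simp
    rw [h2] at h
    nlinarith

/-- The bound at a leaf with the mixture parameter `θ` free. -/
lemma leaf_gibbs {ε θ p₁ q₁ p₂ q₂ U W M e P : ℝ} (hε : 0 < ε) (hε1 : ε < 1) (hθ : 0 < θ)
    (hθ1 : θ < 1) (hp₁ : 0 ≤ p₁) (hq₁ : 0 ≤ q₁) (hp₂ : 0 ≤ p₂) (hq₂ : 0 ≤ q₂) (hU : 0 ≤ U)
    (hW : 0 ≤ W) (hM : M = (3 * p₁ + q₁ + 3 * p₂ + q₂) / 8) (he : e = (U + W) / 2)
    (hP : P = (1 - ε) * M + ε * e) :
    (1 - ε) * ((3 / 8) * (p₁ * Real.log (p₁ / M)) + (1 / 8) * (q₁ * Real.log (q₁ / M)) +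
        (3 / 8) * (p₂ * Real.log (p₂ / M)) + (1 / 8) * (q₂ * Real.log (q₂ / M)))
      + (1 - ε) * M * Real.log ((1 - θ) / (1 - ε)) + ε * e * Real.log (θ / ε) ≤
    (1 - ε) * ((3 / 8) * (p₁ * Real.log (p₁ / P)) + (1 / 8) * (q₁ * Real.log (q₁ / P)) +
        (3 / 8) * (p₂ * Real.log (p₂ / P)) + (1 / 8) * (q₂ * Real.log (q₂ / P)))
      + ε / 2 * (U * Real.log (U / P) + W * Real.log (W / P)) := by
  have hM0 : 0 ≤ M := by rw [hM]; positivity
  have he0 : 0 ≤ e := by rw [he]; positivity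
  have h1ε : 0 < 1 - ε := by linarith
  have h1θ : 0 < 1 - θ := by linarith
  have hP0 : 0 ≤ P := by rw [hP]; positivity
  rcases hP0.eq_or_lt with hP0 | hP0
  · -- everything vanishes
    have hMz : M = 0 := by nlinarith [mul_nonneg h1ε.le hM0, mul_nonneg hε.le he0]
    have hez : e = 0 := by nlinarith [mul_nonneg h1ε.le hM0, mul_nonneg hε.le he0]
    have h1 : p₁ = 0 := by linarith
    have h2 : q₁ = 0 := by linarith
    have h3 : p₂ = 0 := by linarith
    have h4 : q₂ = 0 := by linarith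
    have h5 : U = 0 := by linarith
    have h6 : W = 0 := by linarith
    subst h1 h2 h3 h4 h5 h6
    simp [hMz, hez]
  · have g1 := gibbs_term hM0 hP0 h1ε h1θ
    have g2 := gibbs_term he0 hP0 hε hθ
    -- the normal part
    have n1 : (3 / 8) * (p₁ * Real.log (p₁ / P)) + (1 / 8) * (q₁ * Real.log (q₁ / P)) +
        (3 / 8) * (p₂ * Real.log (p₂ / P)) + (1 / 8) * (q₂ * Real.log (q₂ / P)) =
        (3 / 8) * (p₁ * Real.log (p₁ / M)) + (1 / 8) * (q₁ * Real.log (q₁ / M)) +
        (3 / 8) * (p₂ * Real.log (p₂ / M)) + (1 / 8) * (q₂ * Real.log (q₂ / M)) +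
        M * Real.log (M / P) := by
      rcases hM0.eq_or_lt with hMz | hMp
      · have h1 : p₁ = 0 := by linarith
        have h2 : q₁ = 0 := by linarith
        have h3 : p₂ = 0 := by linarith
        have h4 : q₂ = 0 := by linarith
        rw [← hMz, h1, h2, h3, h4]; simp
      · rw [split_log hp₁ hMp hP0, split_log hq₁ hMp hP0, split_log hp₂ hMp hP0,
          split_log hq₂ hMp hP0]
        have : M * Real.log (M / P) = (3 * p₁ + q₁ + 3 * p₂ + q₂) / 8 * Real.log (M / P) := by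
          rw [← hM]
        rw [this]; ring
    have n2 : e * Real.log (e / P) ≤ (1 / 2) * (U * Real.log (U / P) + W * Real.log (W / P)) := by
      rcases he0.eq_or_lt with hez | hep
      · have h5 : U = 0 := by linarith
        have h6 : W = 0 := by linarith
        rw [← hez, h5, h6]; simp
      · rw [split_log hU hep hP0, split_log hW hep hP0]
        have k1 := xl hU hep
        have k2 := xl hW hep
        have : e * Real.log (e / P) = (U + W) / 2 * Real.log (e / P) := by rw [← he]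
        rw [this]
        nlinarith
    rw [n1]
    have n3 : ε * (e * Real.log (e / P)) ≤
        ε / 2 * (U * Real.log (U / P) + W * Real.log (W / P)) := by
      nlinarith
    have n4 : (1 - ε) * M - (1 - θ) * P + (ε * e - θ * P) = 0 := by rw [hP]; ring
    nlinarith

end Pool.Agent.Helper435.EIC
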