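import Pool.Agent.Helper435.EIC.Leaf

/-! The lower bound summed over the leaves. -/

namespace Pool.Agent.Helper435.EIC

open Real Finset

/-- `ε = 2^{-30}`. -/
noncomputable def eps : ℝ := 1 / 2 ^ 30

lemma eps_pos : 0 < eps := by unfold eps; positivity
lemma eps_lt : eps < 1 / 1000000 := by unfold eps; norm_num

/-- The contribution of one transcript to the external information (in nats). -/
noncomputable def leafInfo (p₁ q₁ p₂ q₂ U W : ℝ) : ℝ :=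
  (1 - eps) * ((3 / 8) * (p₁ * Real.log (p₁ / ((1 - eps) * ((3 * p₁ + q₁ + 3 * p₂ + q₂) / 8)
      + eps * ((U + W) / 2)))) +
    (1 / 8) * (q₁ * Real.log (q₁ / ((1 - eps) * ((3 * p₁ + q₁ + 3 * p₂ + q₂) / 8)
      + eps * ((U + W) / 2)))) +
    (3 / 8) * (p₂ * Real.log (p₂ / ((1 - eps) * ((3 * p₁ + q₁ + 3 * p₂ + q₂) / 8)
      + eps * ((U + W) / 2)))) +
    (1 / 8) * (q₂ * Real.log (q₂ / ((1 - eps) * ((3 * p₁ + q₁ + 3 * p₂ + q₂) / 8)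
      + eps * ((U + W) / 2)))))
  + eps / 2 * (U * Real.log (U / ((1 - eps) * ((3 * p₁ + q₁ + 3 * p₂ + q₂) / 8)
      + eps * ((U + W) / 2))) +
    W * Real.log (W / ((1 - eps) * ((3 * p₁ + q₁ + 3 * p₂ + q₂) / 8)
      + eps * ((U + W) / 2))))

lemma leafInfo_symm (p₁ q₁ p₂ q₂ U W : ℝ) :
    leafInfo p₁ q₁ p₂ q₂ U W = leafInfo p₂ q₂ p₁ q₁ W U := by
  unfold leafInfo
  have : (1 - eps) * ((3 * p₁ + q₁ + 3 * p₂ + q₂) / 8) + eps * ((U + W) / 2)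
    = (1 - eps) * ((3 * p₂ + q₂ + 3 * p₁ + q₁) / 8) + eps * ((W + U) / 2) := by ring
  rw [this]; ring

/-- good leaves: take `θ = ε`. -/
lemma leafInfo_good {p₁ q₁ p₂ q₂ U W : ℝ} (hp₁ : 0 ≤ p₁) (hq₁ : 0 ≤ q₁) (hp₂ : 0 ≤ p₂)
    (hq₂ : 0 ≤ q₂) (hU : 0 ≤ U) (hW : 0 ≤ W) :
    (1 - eps) * ((3 / 8) * (p₁ * Real.log (p₁ / ((3 * p₁ + q₁ + 3 * p₂ + q₂) / 8))) +
      (1 / 8) * (q₁ * Real.log (q₁ / ((3 * p₁ + q₁ + 3 * p₂ + q₂) / 8))) +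
      (3 / 8) * (p₂ * Real.log (p₂ / ((3 * p₁ + q₁ + 3 * p₂ + q₂) / 8))) +
      (1 / 8) * (q₂ * Real.log (q₂ / ((3 * p₁ + q₁ + 3 * p₂ + q₂) / 8)))) ≤
      leafInfo p₁ q₁ p₂ q₂ U W := by
  have h := leaf_gibbs (ε := eps) (θ := eps) eps_pos (by have := eps_lt; linarith) eps_pos
    (by have := eps_lt; linarith) hp₁ hq₁ hp₂ hq₂ hU hW rfl rfl rfl
  have e1 : (1 - eps) / (1 - eps) = 1 := div_self (by have := eps_lt; linarith)
  have e2 : eps / eps = 1 := div_self eps_pos.ne'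
  rw [e1, e2, Real.log_one] at h
  unfold leafInfo
  simpa using h

/-- bad leaves: take `θ = 2^{-10}`. -/
lemma leafInfo_bad {p₁ q₁ p₂ q₂ U W : ℝ} (hp₁ : 0 ≤ p₁) (hq₁ : 0 ≤ q₁) (hp₂ : 0 ≤ p₂)
    (hq₂ : 0 ≤ q₂) (hU : 0 ≤ U) (hW : 0 ≤ W) :
    (1 - eps) * ((3 / 8) * (p₁ * Real.log (p₁ / ((3 * p₁ + q₁ + 3 * p₂ + q₂) / 8))) +
      (1 / 8) * (q₁ * Real.log (q₁ / ((3 * p₁ + q₁ + 3 * p₂ + q₂) / 8))) +
      (3 / 8) * (p₂ * Real.log (p₂ / ((3 * p₁ + q₁ + 3 * p₂ + q₂) / 8))) +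
      (1 / 8) * (q₂ * Real.log (q₂ / ((3 * p₁ + q₁ + 3 * p₂ + q₂) / 8))))
      - (1 - eps) * ((3 * p₁ + q₁ + 3 * p₂ + q₂) / 8) * (Real.log 2 / 512)
      + eps * ((U + W) / 2) * (20 * Real.log 2) ≤
      leafInfo p₁ q₁ p₂ q₂ U W := by
  have h := leaf_gibbs (ε := eps) (θ := 1 / 1024) eps_pos (by have := eps_lt; linarith)
    (by norm_num) (by norm_num) hp₁ hq₁ hp₂ hq₂ hU hW rfl rfl rfl
  have e2 : Real.log (1 / 1024 / eps) = 20 * Real.log 2 := by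
    rw [show (1 / 1024 / eps : ℝ) = 2 ^ 20 by unfold eps; norm_num, Real.log_pow]
    norm_num
  have e1 : - (Real.log 2 / 512) ≤ Real.log ((1 - 1 / 1024) / (1 - eps)) := by
    have h1ε : 0 < 1 - eps := by have := eps_lt; linarith
    have k1 : Real.log (1 - 1 / 1024) ≤ Real.log ((1 - 1 / 1024) / (1 - eps)) := by
      apply Real.log_le_log (by norm_num)
      rw [le_div_iff₀ h1ε]
      have := eps_pos
      nlinarith
    have k2 := Real.one_sub_inv_le_log_of_pos (show (0 : ℝ) < 1 - 1 / 1024 by norm_num)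
    have k3 : (0.69 : ℝ) < Real.log 2 := by
      have := Real.log_two_gt_d9; linarith
    have k4 : - (Real.log 2 / 512) ≤ 1 - (1 - 1 / 1024 : ℝ)⁻¹ := by
      have : (1 : ℝ) - (1 - 1 / 1024 : ℝ)⁻¹ = - (1 / 1023) := by norm_num
      rw [this]
      linarith
    linarith
  rw [e2] at h
  have hM : 0 ≤ (1 - eps) * ((3 * p₁ + q₁ + 3 * p₂ + q₂) / 8) := by
    have := eps_lt
    apply mul_nonneg (by linarith) (by positivity)
  have h2 := mul_le_mul_of_nonneg_left e1 hM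
  unfold leafInfo
  linarith

/-- The lower bound for the contribution of one transcript. -/
noncomputable def leafLow (u v w s₁ t₁ s₂ t₂ r : ℝ) : ℝ :=
  Real.log 2 * ((1 - eps) * ((3 * (u * s₁) ^ 2 + (v * t₁) ^ 2 + 3 * (w * s₂) ^ 2 + (v * t₂) ^ 2) / 8)
    + (1 - eps) * ((1 / 8) * ((u * s₁ - v * t₁) ^ 2 + (w * s₂ - v * t₂) ^ 2))
    - (1 - eps) * (1 / 512) * ((45 / 2) * ((u - v) ^ 2 * s₁ ^ 2 + (w - v) ^ 2 * s₂ ^ 2)
        + (1 / 4) * ((u * s₁ - v * t₁) ^ 2 + (w * s₂ - v * t₂) ^ 2))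
    + 20 * eps * ((u ^ 2 + w ^ 2) / 2 * r - (18 / 25) * (v ^ 2 * r)))

lemma leafLow_symm (u v w s₁ t₁ s₂ t₂ r : ℝ) :
    leafLow u v w s₁ t₁ s₂ t₂ r = leafLow w v u s₂ t₂ s₁ t₁ r := by
  unfold leafLow; ring

/-- Leaves with output `0` at which `a` is possible and `b` is not. -/
lemma leaf_caseB {u v s₁ t₁ r : ℝ} (hu : 0 < u) (hv : 0 ≤ v) (hs₁ : 0 ≤ s₁)
    (ht₁ : 0 ≤ t₁) (hr : 0 ≤ r) :
    leafLow u v 0 s₁ t₁ 0 0 r ≤
      leafInfo ((u * s₁) ^ 2) ((v * t₁) ^ 2) 0 0 (u ^ 2 * r) 0 := by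
  have he := eps_pos
  have he1 := eps_lt
  have h1ε : 0 < 1 - eps := by linarith
  have hl := log_two_pos
  set p := u * s₁ with hp
  set q := v * t₁ with hq
  have hp0 : 0 ≤ p := by positivity
  have hq0 : 0 ≤ q := by positivity
  -- normal part
  have hN : Real.log 2 * ((3 * p ^ 2 + q ^ 2) / 8 + (1 / 8) * (p - q) ^ 2) ≤
      (3 / 8) * (p ^ 2 * Real.log (p ^ 2 / ((3 * p ^ 2 + q ^ 2 + 3 * 0 + 0) / 8))) +
      (1 / 8) * (q ^ 2 * Real.log (q ^ 2 / ((3 * p ^ 2 + q ^ 2 + 3 * 0 + 0) / 8))) := by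
    have e0 : (3 * p ^ 2 + q ^ 2 + 3 * 0 + 0) / 8 = (3 * p ^ 2 + q ^ 2) / 8 := by ring
    rw [e0]
    have hM0 : 0 ≤ (3 * p ^ 2 + q ^ 2) / 8 := by positivity
    rcases hM0.eq_or_lt with hM | hM
    · have h1 : p ^ 2 = 0 := by nlinarith [sq_nonneg p, sq_nonneg q]
      have h2 : q ^ 2 = 0 := by nlinarith [sq_nonneg p, sq_nonneg q]
      have h3 : p = 0 := by simpa using h1
      have h4 : q = 0 := by simpa using h2
      simp [h3, h4]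
    · exact normal1 hp0 hq0 hM
  by_cases hgood : (5 / 6) * u ≤ v
  · have h := leafInfo_good (p₁ := p ^ 2) (q₁ := q ^ 2) (p₂ := 0) (q₂ := 0) (U := u ^ 2 * r)
      (W := 0) (by positivity) (by positivity) le_rfl le_rfl (by positivity) le_rfl
    refine le_trans ?_ h
    have hvv : (25 / 36) * u ^ 2 ≤ v ^ 2 := by nlinarith
    have hb : u ^ 2 / 2 * r ≤ (18 / 25) * (v ^ 2 * r) := by nlinarith
    have hX := mul_le_mul_of_nonneg_left hN h1ε.le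
    unfold leafLow
    rw [← hp, ← hq]
    have g1 : 0 ≤ Real.log 2 * ((1 - eps) * (1 / 512) * ((45 / 2) * ((u - v) ^ 2 * s₁ ^ 2)
        + (1 / 4) * (p - q) ^ 2)) := by positivity
    have g2 : 0 ≤ Real.log 2 * (20 * eps * ((18 / 25) * (v ^ 2 * r) - u ^ 2 / 2 * r)) := by
      have : 0 ≤ (18 / 25) * (v ^ 2 * r) - u ^ 2 / 2 * r := by linarith
      positivity
    linarith
  · push Not at hgood
    have h := leafInfo_bad (p₁ := p ^ 2) (q₁ := q ^ 2) (p₂ := 0) (q₂ := 0) (U := u ^ 2 * r)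
      (W := 0) (by positivity) (by positivity) le_rfl le_rfl (by positivity) le_rfl
    refine le_trans ?_ h
    have hX := mul_le_mul_of_nonneg_left hN h1ε.le
    have huv : u ≤ 6 * (u - v) := by linarith
    have huv2 : u ^ 2 ≤ 36 * (u - v) ^ 2 := by nlinarith
    have hp2 : p ^ 2 ≤ 36 * ((u - v) ^ 2 * s₁ ^ 2) := by
      rw [hp, mul_pow]
      nlinarith [sq_nonneg s₁]
    have hq2 : q ^ 2 ≤ 2 * p ^ 2 + 2 * (p - q) ^ 2 := by nlinarith [sq_nonneg (2 * p - q)]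
    have hMb : (3 * p ^ 2 + q ^ 2) / 8 ≤ (45 / 2) * ((u - v) ^ 2 * s₁ ^ 2)
        + (1 / 4) * (p - q) ^ 2 := by linarith
    have hMb2 := mul_le_mul_of_nonneg_left hMb (show 0 ≤ Real.log 2 * ((1 - eps) * (1 / 512)) by
      positivity)
    have g2 : 0 ≤ Real.log 2 * (20 * eps * ((18 / 25) * (v ^ 2 * r))) := by positivity
    unfold leafLow
    rw [← hp, ← hq]
    linarith

/-- Leaves reachable from `c` only. -/
lemma leaf_caseD {v s₁ t₁ s₂ t₂ r : ℝ} (hr : 0 ≤ r) :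
    leafLow 0 v 0 s₁ t₁ s₂ t₂ r ≤
      leafInfo 0 ((v * t₁) ^ 2) 0 ((v * t₂) ^ 2) 0 0 := by
  have he := eps_pos
  have he1 := eps_lt
  have h1ε : 0 < 1 - eps := by linarith
  have hl := log_two_pos
  set p := v * t₁ with hp
  set q := v * t₂ with hq
  have hN : Real.log 2 * ((p ^ 2 + q ^ 2) / 8 + (1 / 8) * (p ^ 2 + q ^ 2)) ≤
      (1 / 8) * (p ^ 2 * Real.log (p ^ 2 / ((3 * 0 + p ^ 2 + 3 * 0 + q ^ 2) / 8))) +
      (1 / 8) * (q ^ 2 * Real.log (q ^ 2 / ((3 * 0 + p ^ 2 + 3 * 0 + q ^ 2) / 8))) := by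
    have e0 : (3 * 0 + p ^ 2 + 3 * 0 + q ^ 2) / 8 = (p ^ 2 + q ^ 2) / 8 := by ring
    rw [e0]
    have hM0 : 0 ≤ (p ^ 2 + q ^ 2) / 8 := by positivity
    rcases hM0.eq_or_lt with hM | hM
    · have h1 : p ^ 2 = 0 := by nlinarith [sq_nonneg p, sq_nonneg q]
      have h2 : q ^ 2 = 0 := by nlinarith [sq_nonneg p, sq_nonneg q]
      have h3 : p = 0 := by simpa using h1
      have h4 : q = 0 := by simpa using h2
      simp [h3, h4]
    · exact normal3 hM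
  have h := leafInfo_good (p₁ := 0) (q₁ := p ^ 2) (p₂ := 0) (q₂ := q ^ 2) (U := 0)
    (W := 0) le_rfl (by positivity) le_rfl (by positivity) le_rfl le_rfl
  refine le_trans ?_ h
  have hX := mul_le_mul_of_nonneg_left hN h1ε.le
  have g1 : 0 ≤ Real.log 2 * ((1 - eps) * (1 / 512) * ((45 / 2) * (v ^ 2 * s₁ ^ 2 + v ^ 2 * s₂ ^ 2)
        + (1 / 4) * (p ^ 2 + q ^ 2))) := by positivity
  have g2 : 0 ≤ Real.log 2 * (20 * eps * ((18 / 25) * (v ^ 2 * r))) := by positivity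
  unfold leafLow
  rw [← hp, ← hq]
  linarith

/-- The inequality at a leaf. -/
lemma leaf_all {u v w s₁ t₁ s₂ t₂ r : ℝ} (hu : 0 ≤ u) (hv : 0 ≤ v) (hw : 0 ≤ w)
    (hs₁ : 0 ≤ s₁) (ht₁ : 0 ≤ t₁) (hs₂ : 0 ≤ s₂) (ht₂ : 0 ≤ t₂) (hr : 0 ≤ r)
    (h : ((w = 0 ∨ (s₁ = 0 ∧ t₁ = 0)) ∧ (u = 0 ∨ (s₂ = 0 ∧ t₂ = 0))) ∨
      (u * s₁ = 0 ∧ v * t₁ = 0 ∧ w * s₂ = 0 ∧ v * t₂ = 0 ∧ u * r = 0 ∧ v * r = 0 ∧ w * r = 0)) :
    leafLow u v w s₁ t₁ s₂ t₂ r ≤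
      leafInfo ((u * s₁) ^ 2) ((v * t₁) ^ 2) ((w * s₂) ^ 2) ((v * t₂) ^ 2) (u ^ 2 * r)
        (w ^ 2 * r) := by
  have he := eps_pos
  have he1 := eps_lt
  have h1ε : 0 < 1 - eps := by linarith
  have hl := log_two_pos
  rcases h with ⟨h1, h2⟩ | ⟨h1, h2, h3, h4, h5, h6, h7⟩
  · rcases hu.eq_or_lt with rfl | hu
    · rcases hw.eq_or_lt with rfl | hw
      · have := leaf_caseD (v := v) (s₁ := s₁) (t₁ := t₁) (s₂ := s₂) (t₂ := t₂) hr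
        simpa using this
      · obtain ⟨rfl, rfl⟩ : s₁ = 0 ∧ t₁ = 0 := by
          rcases h1 with h1 | h1
          · exact absurd h1 hw.ne'
          · exact h1
        rw [leafLow_symm, leafInfo_symm]
        have := leaf_caseB (u := w) (v := v) (s₁ := s₂) (t₁ := t₂) hw hv hs₂ ht₂ hr
        simpa using this
    · obtain ⟨rfl, rfl⟩ : s₂ = 0 ∧ t₂ = 0 := by
        rcases h2 with h2 | h2
        · exact absurd h2 hu.ne'
        · exact h2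
      rcases hw.eq_or_lt with rfl | hw
      · have := leaf_caseB (u := u) (v := v) (s₁ := s₁) (t₁ := t₁) hu hv hs₁ ht₁ hr
        simpa using this
      · obtain ⟨rfl, rfl⟩ : s₁ = 0 ∧ t₁ = 0 := by
          rcases h1 with h1 | h1
          · exact absurd h1 hw.ne'
          · exact h1
        have h := leafInfo_bad (p₁ := 0) (q₁ := 0) (p₂ := 0) (q₂ := 0) (U := u ^ 2 * r)
          (W := w ^ 2 * r) le_rfl le_rfl le_rfl le_rfl (by positivity) (by positivity)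
        have g2 : 0 ≤ Real.log 2 * (20 * eps * ((18 / 25) * (v ^ 2 * r))) := by positivity
        have e1 : leafLow u v w 0 0 0 0 r = Real.log 2 *
            (20 * eps * ((u ^ 2 + w ^ 2) / 2 * r - (18 / 25) * (v ^ 2 * r))) := by
          unfold leafLow; ring
        rw [e1]
        simp only [mul_zero, ne_eq, OfNat.ofNat_ne_zero, not_false_eq_true, zero_pow] 
        refine le_trans ?_ h
        linarith
  · have hur : u ^ 2 * r = 0 := by rw [pow_two, mul_assoc, h5, mul_zero]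
    have hvr : v ^ 2 * r = 0 := by rw [pow_two, mul_assoc, h6, mul_zero]
    have hwr : w ^ 2 * r = 0 := by rw [pow_two, mul_assoc, h7, mul_zero]
    have hR : leafInfo ((u * s₁) ^ 2) ((v * t₁) ^ 2) ((w * s₂) ^ 2) ((v * t₂) ^ 2) (u ^ 2 * r)
        (w ^ 2 * r) = 0 := by
      rw [h1, h2, h3, h4, hur, hwr]
      unfold leafInfo
      simp
    rw [hR]
    have g1 : 0 ≤ Real.log 2 * ((1 - eps) * (1 / 512) * ((45 / 2) * ((u - v) ^ 2 * s₁ ^ 2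
        + (w - v) ^ 2 * s₂ ^ 2))) := by positivity
    unfold leafLow
    rw [h1, h2, h3, h4]
    have e1 : (u ^ 2 + w ^ 2) / 2 * r - 18 / 25 * (v ^ 2 * r) = 0 := by
      have : (u ^ 2 + w ^ 2) / 2 * r = (u ^ 2 * r + w ^ 2 * r) / 2 := by ring
      rw [this, hur, hwr, hvr]; norm_num
    rw [e1]
    linarith

/-- The sum over the leaves. -/
lemma sum_low {T : Type} [Fintype T] (u v w s₁ t₁ s₂ t₂ r : T → ℝ)
    (hu : ∀ t, 0 ≤ u t) (hv : ∀ t, 0 ≤ v t) (hw : ∀ t, 0 ≤ w t)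
    (a1 : ∑ t, u t ^ 2 * s₁ t ^ 2 = 1) (a2 : ∑ t, u t ^ 2 * t₁ t ^ 2 = 1)
    (a3 : ∑ t, v t ^ 2 * s₁ t ^ 2 = 1) (a4 : ∑ t, v t ^ 2 * t₁ t ^ 2 = 1)
    (b1 : ∑ t, w t ^ 2 * s₂ t ^ 2 = 1) (b2 : ∑ t, w t ^ 2 * t₂ t ^ 2 = 1)
    (b3 : ∑ t, v t ^ 2 * s₂ t ^ 2 = 1) (b4 : ∑ t, v t ^ 2 * t₂ t ^ 2 = 1)
    (c1 : ∑ t, u t ^ 2 * r t = 1) (c2 : ∑ t, w t ^ 2 * r t = 1)
    (c3 : ∑ t, v t ^ 2 * r t = 1) :
    Real.log 2 * (1 + 4 * eps) ≤
      ∑ t, leafLow (u t) (v t) (w t) (s₁ t) (t₁ t) (s₂ t) (t₂ t) (r t) := by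
  have he := eps_pos
  have he1 := eps_lt
  have h1ε : 0 < 1 - eps := by linarith
  have hl := log_two_pos
  -- abbreviations for the sums
  set D₁ := ∑ t, (u t * s₁ t - v t * t₁ t) ^ 2 with hD₁
  set D₂ := ∑ t, (w t * s₂ t - v t * t₂ t) ^ 2 with hD₂
  set E₁ := ∑ t, (u t - v t) ^ 2 * s₁ t ^ 2 with hE₁
  set E₂ := ∑ t, (w t - v t) ^ 2 * s₂ t ^ 2 with hE₂
  have hD₁0 : 0 ≤ D₁ := Finset.sum_nonneg fun t _ => sq_nonneg _
  have hD₂0 : 0 ≤ D₂ := Finset.sum_nonneg fun t _ => sq_nonneg _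
  have hE : ∀ (u v s t : T → ℝ), (∀ x, 0 ≤ u x) → (∀ x, 0 ≤ v x) →
      ∑ x, u x ^ 2 * s x ^ 2 = 1 → ∑ x, u x ^ 2 * t x ^ 2 = 1 →
      ∑ x, v x ^ 2 * s x ^ 2 = 1 → ∑ x, v x ^ 2 * t x ^ 2 = 1 →
      ∑ x, (u x - v x) ^ 2 * s x ^ 2 ≤ 2 * ∑ x, (u x * s x - v x * t x) ^ 2 := by
    intro u v s t hu hv h1 h2 h3 h4
    have key : ∀ x, (u x - v x) ^ 2 * s x ^ 2 ≤ 2 * (u x * s x - v x * t x) ^ 2
        + (v x ^ 2 * s x ^ 2 - v x ^ 2 * t x ^ 2) + (u x ^ 2 * t x ^ 2 - u x ^ 2 * s x ^ 2) := by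
      intro x
      have k1 : 0 ≤ u x * v x * (s x - t x) ^ 2 := by
        have := hu x; have := hv x; positivity
      have k2 : 0 ≤ (u x - v x) ^ 2 * t x ^ 2 := by positivity
      nlinarith
    calc ∑ x, (u x - v x) ^ 2 * s x ^ 2 ≤ ∑ x, (2 * (u x * s x - v x * t x) ^ 2
        + (v x ^ 2 * s x ^ 2 - v x ^ 2 * t x ^ 2) + (u x ^ 2 * t x ^ 2 - u x ^ 2 * s x ^ 2)) :=
          Finset.sum_le_sum fun x _ => key x
      _ = 2 * ∑ x, (u x * s x - v x * t x) ^ 2 := by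
        rw [Finset.sum_add_distrib, Finset.sum_add_distrib, Finset.sum_sub_distrib,
          Finset.sum_sub_distrib, h1, h2, h3, h4, Finset.mul_sum]
        ring
  have hE₁' : E₁ ≤ 2 * D₁ := hE u v s₁ t₁ hu hv a1 a2 a3 a4
  have hE₂' : E₂ ≤ 2 * D₂ := hE w v s₂ t₂ hw hv b1 b2 b3 b4
  have hsum : ∑ t, leafLow (u t) (v t) (w t) (s₁ t) (t₁ t) (s₂ t) (t₂ t) (r t) =
      Real.log 2 * ((1 - eps) * 1 + (1 - eps) * ((1 / 8) * (D₁ + D₂))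
      - (1 - eps) * (1 / 512) * ((45 / 2) * (E₁ + E₂) + (1 / 4) * (D₁ + D₂))
      + 20 * eps * (1 - (18 / 25) * 1)) := by
    have e1 : ∀ t, leafLow (u t) (v t) (w t) (s₁ t) (t₁ t) (s₂ t) (t₂ t) (r t) =
        Real.log 2 * (1 - eps) * (3 / 8) * (u t ^ 2 * s₁ t ^ 2)
        + Real.log 2 * (1 - eps) * (1 / 8) * (v t ^ 2 * t₁ t ^ 2)
        + Real.log 2 * (1 - eps) * (3 / 8) * (w t ^ 2 * s₂ t ^ 2)
        + Real.log 2 * (1 - eps) * (1 / 8) * (v t ^ 2 * t₂ t ^ 2)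
        + Real.log 2 * (1 - eps) * (1 / 8 - 1 / 2048) * (u t * s₁ t - v t * t₁ t) ^ 2
        + Real.log 2 * (1 - eps) * (1 / 8 - 1 / 2048) * (w t * s₂ t - v t * t₂ t) ^ 2
        - Real.log 2 * (1 - eps) * (45 / 1024) * ((u t - v t) ^ 2 * s₁ t ^ 2)
        - Real.log 2 * (1 - eps) * (45 / 1024) * ((w t - v t) ^ 2 * s₂ t ^ 2)
        + Real.log 2 * (10 * eps) * (u t ^ 2 * r t)
        + Real.log 2 * (10 * eps) * (w t ^ 2 * r t)
        - Real.log 2 * (20 * eps) * (18 / 25) * (v t ^ 2 * r t) := by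
      intro t; unfold leafLow; ring
    simp only [e1]
    simp only [Finset.sum_add_distrib, Finset.sum_sub_distrib, ← Finset.mul_sum]
    rw [a1, a4, b1, b4, c1, c2, c3, ← hD₁, ← hD₂, ← hE₁, ← hE₂]
    ring
  rw [hsum]
  have hfin : 1 + 4 * eps ≤ (1 - eps) * 1 + (1 - eps) * ((1 / 8) * (D₁ + D₂))
      - (1 - eps) * (1 / 512) * ((45 / 2) * (E₁ + E₂) + (1 / 4) * (D₁ + D₂))
      + 20 * eps * (1 - (18 / 25) * 1) := by
    have k1 : 0 ≤ (1 - eps) * ((1 / 8) * (D₁ + D₂)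
      - (1 / 512) * ((45 / 2) * (E₁ + E₂) + (1 / 4) * (D₁ + D₂))) := by
      apply mul_nonneg h1ε.le
      linarith
    nlinarith
  exact mul_le_mul_of_nonneg_left hfin hl.le

end Pool.Agent.Helper435.EIC
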