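import Pool.Agent.Helper435.EIC.Basic
import Pool.Agent.Helper435.EIC.Sum

/-! The lower bound on the external information complexity of the example. -/

namespace Pool.Agent.Helper435.EIC

open Finset

/-- Three bits. -/
abbrev B3 : Type := Fin 3 → Bool

def xa : B3 := ![true, false, false]
def xb : B3 := ![false, true, false]
def xc : B3 := ![false, false, false]
def ya1 : B3 := ![true, false, true]
def yc1 : B3 := ![true, false, false]
def yb2 : B3 := ![true, true, true]
def yc2 : B3 := ![true, true, false]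
def ye : B3 := ![false, false, false]

/-- The function of the example. -/
def F0 (x y : B3) : Bool := y 0 && (if y 1 then x 0 else (!x 0 && x 1))

/-- The input law of the example. -/
noncomputable def mu0 (z : B3 × B3) : ℝ :=
  (if z = (xa, ya1) then (1 - eps) * (3 / 8) else 0) +
  (if z = (xc, yc1) then (1 - eps) * (1 / 8) else 0) +
  (if z = (xb, yb2) then (1 - eps) * (3 / 8) else 0) +
  (if z = (xc, yc2) then (1 - eps) * (1 / 8) else 0) +
  (if z = (xa, ye) then eps / 2 else 0) +
  (if z = (xb, ye) then eps / 2 else 0)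

lemma sum_mu0 (g : B3 × B3 → ℝ) : ∑ z, mu0 z * g z =
    (1 - eps) * (3 / 8) * g (xa, ya1) + (1 - eps) * (1 / 8) * g (xc, yc1) +
    (1 - eps) * (3 / 8) * g (xb, yb2) + (1 - eps) * (1 / 8) * g (xc, yc2) +
    eps / 2 * g (xa, ye) + eps / 2 * g (xb, ye) := by
  unfold mu0
  simp only [add_mul, ite_mul, zero_mul, Finset.sum_add_distrib, Finset.sum_ite_eq',
    Finset.mem_univ, if_true]

lemma mu0_nonneg (z : B3 × B3) : 0 ≤ mu0 z := by
  have he := eps_pos
  have he1 := eps_lt
  have h1ε : 0 < 1 - eps := by linarith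
  unfold mu0
  positivity

lemma mu0_sum_one : ∑ z, mu0 z = 1 := by
  have h := sum_mu0 (fun _ => 1)
  simp only [mul_one] at h
  rw [h]; ring

/-- The external information in nats, with the law cancelled. -/
lemma extInfo_eq {X Y O : Type} [Fintype X] [Fintype Y] (π : Prot X Y O) (μ : X × Y → ℝ) :
    extInfo π μ = (∑ t : π.Transcript, ∑ z : X × Y, μ z * (π.prob t z.1 z.2 *
      Real.log (π.prob t z.1 z.2 / ∑ z' : X × Y, μ z' * π.prob t z'.1 z'.2))) / Real.log 2 := by
  unfold extInfo mutualInfo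
  rw [Finset.sum_div]
  refine Finset.sum_congr rfl fun t _ => ?_
  rw [Finset.sum_div]
  refine Finset.sum_congr rfl fun z _ => ?_
  rw [← Finset.mul_sum, π.sum_prob, mul_one, Real.logb]
  by_cases hz : μ z = 0
  · simp [hz]
  · rw [mul_comm (∑ z' : X × Y, μ z' * π.prob t z'.1 z'.2) (μ z), mul_div_mul_left _ _ hz]
    ring

theorem lower (π : Prot B3 B3 Bool) (hπ : π.ZeroError F0) : 1 + 4 * eps ≤ extInfo π mu0 := by
  rw [extInfo_eq, le_div_iff₀ log_two_pos, mul_comm]
  obtain ⟨α, β, hα, hβ, hab⟩ := π.exists_rect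
  have hsum : ∀ x y, ∑ t, α t x * β t y = 1 := by
    intro x y
    rw [← π.sum_prob x y]
    exact Finset.sum_congr rfl fun t _ => (hab t x y).symm
  have hsum' : ∀ x y, ∑ t, (Real.sqrt (α t x)) ^ 2 * (Real.sqrt (β t y)) ^ 2 = 1 := by
    intro x y
    rw [← hsum x y]
    exact Finset.sum_congr rfl fun t _ => by rw [Real.sq_sqrt (hα t x), Real.sq_sqrt (hβ t y)]
  have hsum'' : ∀ x y, ∑ t, (Real.sqrt (α t x)) ^ 2 * β t y = 1 := by
    intro x y
    rw [← hsum x y]
    exact Finset.sum_congr rfl fun t _ => by rw [Real.sq_sqrt (hα t x)]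
  refine le_trans (sum_low (fun t => Real.sqrt (α t xa)) (fun t => Real.sqrt (α t xc))
    (fun t => Real.sqrt (α t xb)) (fun t => Real.sqrt (β t ya1)) (fun t => Real.sqrt (β t yc1))
    (fun t => Real.sqrt (β t yb2)) (fun t => Real.sqrt (β t yc2)) (fun t => β t ye)
    (fun t => Real.sqrt_nonneg _) (fun t => Real.sqrt_nonneg _) (fun t => Real.sqrt_nonneg _)
    (hsum' _ _) (hsum' _ _) (hsum' _ _) (hsum' _ _) (hsum' _ _) (hsum' _ _) (hsum' _ _)
    (hsum' _ _) (hsum'' _ _) (hsum'' _ _) (hsum'' _ _)) ?_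
  refine Finset.sum_le_sum fun t _ => ?_
  have hz : ∀ x y, π.output t ≠ F0 x y → α t x = 0 ∨ β t y = 0 := by
    intro x y h
    by_contra hcon
    push Not at hcon
    exact h (hπ x y t (by rw [hab]; exact mul_ne_zero hcon.1 hcon.2))
  have hpat : ((Real.sqrt (α t xb) = 0 ∨ (Real.sqrt (β t ya1) = 0 ∧ Real.sqrt (β t yc1) = 0)) ∧
      (Real.sqrt (α t xa) = 0 ∨ (Real.sqrt (β t yb2) = 0 ∧ Real.sqrt (β t yc2) = 0))) ∨
      (Real.sqrt (α t xa) * Real.sqrt (β t ya1) = 0 ∧ Real.sqrt (α t xc) * Real.sqrt (β t yc1) = 0 ∧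
       Real.sqrt (α t xb) * Real.sqrt (β t yb2) = 0 ∧ Real.sqrt (α t xc) * Real.sqrt (β t yc2) = 0 ∧
       Real.sqrt (α t xa) * β t ye = 0 ∧ Real.sqrt (α t xc) * β t ye = 0 ∧
       Real.sqrt (α t xb) * β t ye = 0) := by
    have hs : ∀ x y, π.output t ≠ F0 x y → Real.sqrt (α t x) = 0 ∨ Real.sqrt (β t y) = 0 := by
      intro x y h
      rcases hz x y h with h | h
      · left; rw [h, Real.sqrt_zero]
      · right; rw [h, Real.sqrt_zero]
    have hs' : ∀ x y, π.output t ≠ F0 x y → Real.sqrt (α t x) = 0 ∨ β t y = 0 := by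
      intro x y h
      rcases hz x y h with h | h
      · left; rw [h, Real.sqrt_zero]
      · right; exact h
    cases ho : π.output t with
    | false =>
      left
      have h1 := hs xb ya1 (by rw [ho]; decide)
      have h2 := hs xb yc1 (by rw [ho]; decide)
      have h3 := hs xa yb2 (by rw [ho]; decide)
      have h4 := hs xa yc2 (by rw [ho]; decide)
      tauto
    | true =>
      right
      have h1 := hs xa ya1 (by rw [ho]; decide)
      have h2 := hs xc yc1 (by rw [ho]; decide)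
      have h3 := hs xb yb2 (by rw [ho]; decide)
      have h4 := hs xc yc2 (by rw [ho]; decide)
      have h5 := hs' xa ye (by rw [ho]; decide)
      have h6 := hs' xc ye (by rw [ho]; decide)
      have h7 := hs' xb ye (by rw [ho]; decide)
      simp only [mul_eq_zero]
      exact ⟨h1, h2, h3, h4, h5, h6, h7⟩
  refine le_trans (leaf_all (Real.sqrt_nonneg _) (Real.sqrt_nonneg _) (Real.sqrt_nonneg _)
    (Real.sqrt_nonneg _) (Real.sqrt_nonneg _) (Real.sqrt_nonneg _) (Real.sqrt_nonneg _)
    (hβ t ye) hpat) (le_of_eq ?_)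
  rw [sum_mu0, sum_mu0]
  simp only [mul_pow, Real.sq_sqrt (hα t _), Real.sq_sqrt (hβ t _), hab]
  unfold leafInfo
  have e1 : (1 - eps) * (3 / 8) * (α t xa * β t ya1) + (1 - eps) * (1 / 8) * (α t xc * β t yc1) +
      (1 - eps) * (3 / 8) * (α t xb * β t yb2) + (1 - eps) * (1 / 8) * (α t xc * β t yc2) +
      eps / 2 * (α t xa * β t ye) + eps / 2 * (α t xb * β t ye) =
      (1 - eps) * ((3 * (α t xa * β t ya1) + α t xc * β t yc1 + 3 * (α t xb * β t yb2)
        + α t xc * β t yc2) / 8) + eps * ((α t xa * β t ye + α t xb * β t ye) / 2) := by ring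
  rw [e1]
  ring

end Pool.Agent.Helper435.EIC
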