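import Pool.Agent.Helper435.EIC.Basic

/-! Deterministic messages, and the hashing count. -/

namespace Pool.Agent.Helper435.EIC

open Finset

/-- The probability `1` or `0`. -/
def bitI (b : Bool) : unitInterval := if b then 1 else 0

lemma bitI_true : ((bitI true : unitInterval) : ℝ) = 1 := rfl
lemma bitI_false : ((bitI false : unitInterval) : ℝ) = 0 := rfl

lemma bitI_det (b : Bool) : bitI b = 0 ∨ bitI b = 1 := by
  cases b
  · left; rfl
  · right; rfl

namespace Prot

variable {X Y O : Type}

/-- Alice sends the `k` bits `f x`, then the protocol goes on. -/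
def sendA : (k : ℕ) → (X → Fin k → Bool) → ((Fin k → Bool) → Prot X Y O) → Prot X Y O
  | 0, _, K => K Fin.elim0
  | k + 1, f, K => .alice (fun x => bitI (f x 0))
      (sendA k (fun x i => f x i.succ) (fun v => K (Fin.cons false v)))
      (sendA k (fun x i => f x i.succ) (fun v => K (Fin.cons true v)))

/-- Bob sends the `k` bits `f y`, then the protocol goes on. -/
def sendB : (k : ℕ) → (Y → Fin k → Bool) → ((Fin k → Bool) → Prot X Y O) → Prot X Y O
  | 0, _, K => K Fin.elim0
  | k + 1, f, K => .bob (fun y => bitI (f y 0))
      (sendB k (fun y i => f y i.succ) (fun v => K (Fin.cons false v)))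
      (sendB k (fun y i => f y i.succ) (fun v => K (Fin.cons true v)))

/-- Correctness on one input. -/
def Correct (π : Prot X Y O) (x : X) (y : Y) (o : O) : Prop :=
  ∀ t, π.prob t x y ≠ 0 → π.output t = o

lemma correct_out (o : O) (x : X) (y : Y) : (out o : Prot X Y O).Correct x y o :=
  fun _ _ => rfl

lemma correct_alice {f : X → Bool} {π₀ π₁ : Prot X Y O} {x : X} {y : Y} {o : O}
    (h₀ : f x = false → π₀.Correct x y o) (h₁ : f x = true → π₁.Correct x y o) :
    (alice (fun x => bitI (f x)) π₀ π₁).Correct x y o := by
  rintro (t | t) ht
  · cases hf : f x with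
    | false =>
      refine h₀ hf t ?_
      intro h
      apply ht
      simp only [prob, h, mul_zero]
    | true =>
      exfalso; apply ht
      simp only [prob, hf, bitI_true, sub_self, zero_mul]
  · cases hf : f x with
    | true =>
      refine h₁ hf t ?_
      intro h
      apply ht
      simp only [prob, h, mul_zero]
    | false =>
      exfalso; apply ht
      simp only [prob, hf, bitI_false, zero_mul]

lemma correct_bob {f : Y → Bool} {π₀ π₁ : Prot X Y O} {x : X} {y : Y} {o : O}
    (h₀ : f y = false → π₀.Correct x y o) (h₁ : f y = true → π₁.Correct x y o) :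
    (bob (fun y => bitI (f y)) π₀ π₁).Correct x y o := by
  rintro (t | t) ht
  · cases hf : f y with
    | false =>
      refine h₀ hf t ?_
      intro h
      apply ht
      simp only [prob, h, mul_zero]
    | true =>
      exfalso; apply ht
      simp only [prob, hf, bitI_true, sub_self, zero_mul]
  · cases hf : f y with
    | true =>
      refine h₁ hf t ?_
      intro h
      apply ht
      simp only [prob, h, mul_zero]
    | false =>
      exfalso; apply ht
      simp only [prob, hf, bitI_false, zero_mul]

lemma correct_sendA (k : ℕ) : ∀ (f : X → Fin k → Bool) (K : (Fin k → Bool) → Prot X Y O)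
    {x : X} {y : Y} {o : O}, (K (f x)).Correct x y o → (sendA k f K).Correct x y o := by
  induction k with
  | zero =>
    intro f K x y o h
    have : f x = Fin.elim0 := Subsingleton.elim _ _
    rw [this] at h
    exact h
  | succ k ih =>
    intro f K x y o h
    apply correct_alice
    · intro hf
      apply ih
      have : Fin.cons false (fun i : Fin k => f x i.succ) = f x := by
        rw [← hf]; exact Fin.cons_self_tail (f x)
      rw [this]; exact h
    · intro hf
      apply ih
      have : Fin.cons true (fun i : Fin k => f x i.succ) = f x := by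
        rw [← hf]; exact Fin.cons_self_tail (f x)
      rw [this]; exact h

lemma correct_sendB (k : ℕ) : ∀ (f : Y → Fin k → Bool) (K : (Fin k → Bool) → Prot X Y O)
    {x : X} {y : Y} {o : O}, (K (f y)).Correct x y o → (sendB k f K).Correct x y o := by
  induction k with
  | zero =>
    intro f K x y o h
    have : f y = Fin.elim0 := Subsingleton.elim _ _
    rw [this] at h
    exact h
  | succ k ih =>
    intro f K x y o h
    apply correct_bob
    · intro hf
      apply ih
      have : Fin.cons false (fun i : Fin k => f y i.succ) = f y := by
        rw [← hf]; exact Fin.cons_self_tail (f y)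
      rw [this]; exact h
    · intro hf
      apply ih
      have : Fin.cons true (fun i : Fin k => f y i.succ) = f y := by
        rw [← hf]; exact Fin.cons_self_tail (f y)
      rw [this]; exact h

lemma det_sendA (k : ℕ) : ∀ (f : X → Fin k → Bool) (K : (Fin k → Bool) → Prot X Y O),
    (∀ v, (K v).Deterministic) → (sendA k f K).Deterministic := by
  induction k with
  | zero => intro f K h; exact h _
  | succ k ih =>
    intro f K h
    exact ⟨fun x => bitI_det _, ih _ _ fun v => h _, ih _ _ fun v => h _⟩

lemma det_sendB (k : ℕ) : ∀ (f : Y → Fin k → Bool) (K : (Fin k → Bool) → Prot X Y O),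
    (∀ v, (K v).Deterministic) → (sendB k f K).Deterministic := by
  induction k with
  | zero => intro f K h; exact h _
  | succ k ih =>
    intro f K h
    exact ⟨fun x => bitI_det _, ih _ _ fun v => h _, ih _ _ fun v => h _⟩

lemma avg_bitA (f : X → Bool) (π₀ π₁ : Prot X Y O) (x : X) (y : Y) :
    (alice (fun x => bitI (f x)) π₀ π₁).avg x y = 1 + (if f x then π₁ else π₀).avg x y := by
  rw [avg_alice]
  cases hf : f x with
  | false => simp [bitI_false]
  | true => simp [bitI_true]

lemma avg_bitB (f : Y → Bool) (π₀ π₁ : Prot X Y O) (x : X) (y : Y) :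
    (bob (fun y => bitI (f y)) π₀ π₁).avg x y = 1 + (if f y then π₁ else π₀).avg x y := by
  rw [avg_bob]
  cases hf : f y with
  | false => simp [bitI_false]
  | true => simp [bitI_true]

lemma avg_sendA (k : ℕ) : ∀ (f : X → Fin k → Bool) (K : (Fin k → Bool) → Prot X Y O)
    (x : X) (y : Y), (sendA k f K).avg x y = k + (K (f x)).avg x y := by
  induction k with
  | zero =>
    intro f K x y
    have : f x = Fin.elim0 := Subsingleton.elim _ _
    rw [this]
    simp [sendA]
  | succ k ih =>
    intro f K x y
    rw [sendA, avg_bitA]
    have : Fin.cons (f x 0) (fun i : Fin k => f x i.succ) = f x := Fin.cons_self_tail (f x)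
    cases hf : f x 0 with
    | false =>
      rw [hf] at this
      simp only [Bool.false_eq_true, if_false]
      rw [ih, this]; push_cast; ring
    | true =>
      rw [hf] at this
      simp only [if_true]
      rw [ih, this]; push_cast; ring

lemma avg_sendB (k : ℕ) : ∀ (f : Y → Fin k → Bool) (K : (Fin k → Bool) → Prot X Y O)
    (x : X) (y : Y), (sendB k f K).avg x y = k + (K (f y)).avg x y := by
  induction k with
  | zero =>
    intro f K x y
    have : f y = Fin.elim0 := Subsingleton.elim _ _
    rw [this]
    simp [sendB]
  | succ k ih =>
    intro f K x y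
    rw [sendB, avg_bitB]
    have : Fin.cons (f y 0) (fun i : Fin k => f y i.succ) = f y := Fin.cons_self_tail (f y)
    cases hf : f y 0 with
    | false =>
      rw [hf] at this
      simp only [Bool.false_eq_true, if_false]
      rw [ih, this]; push_cast; ring
    | true =>
      rw [hf] at this
      simp only [if_true]
      rw [ih, this]; push_cast; ring

end Prot

/-- Counting the functions that collide at two given points. -/
lemma hash_count {S R : Type} [Fintype S] [DecidableEq S] [Fintype R] [DecidableEq R]
    {z x : S} (hzx : x ≠ z) :
    (∑ h : S → R, (if h z = h x then (1 : ℝ) else 0)) * Fintype.card R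
      = Fintype.card (S → R) := by
  rw [← (Equiv.funSplitAt z R).symm.sum_comp, Fintype.sum_prod_type_right]
  have h1 : ∀ (h' : {j // j ≠ z} → R) (r : R), (Equiv.funSplitAt z R).symm (r, h') z = r := by
    intro h' r; simp [Equiv.funSplitAt, Equiv.piSplitAt]
  have h2 : ∀ (h' : {j // j ≠ z} → R) (r : R),
      (Equiv.funSplitAt z R).symm (r, h') x = h' ⟨x, hzx⟩ := by
    intro h' r; simp [Equiv.funSplitAt, Equiv.piSplitAt, hzx]
  simp only [h1, h2, Finset.sum_ite_eq', Finset.mem_univ, if_true, Finset.sum_const,
    Finset.card_univ]
  rw [Fintype.card_congr (Equiv.funSplitAt z R), Fintype.card_prod]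
  push_cast
  simp
  ring

end Pool.Agent.Helper435.EIC
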