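import Pool.Agent.Helper435.EIC.Send
import Pool.Agent.Helper435.EIC.Lower

/-! The upper bound on the amortized communication of the example. -/

namespace Pool.Agent.Helper435.EIC

open Finset Prot

/-- The support of `mu0`. -/
def supp (z : B3 × B3) : Bool :=
  decide (z = (xa, ya1)) || decide (z = (xc, yc1)) || decide (z = (xb, yb2)) ||
  decide (z = (xc, yc2)) || decide (z = (xa, ye)) || decide (z = (xb, ye))

lemma supp_of_mu0 {z : B3 × B3} (h : mu0 z ≠ 0) : supp z = true := by
  by_contra hs
  apply h
  unfold supp at hs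
  simp only [Bool.or_eq_true, decide_eq_true_eq, not_or] at hs
  obtain ⟨⟨⟨⟨⟨h1, h2⟩, h3⟩, h4⟩, h5⟩, h6⟩ := hs
  unfold mu0
  simp only [h1, h2, h3, h4, h5, h6, if_false]
  norm_num

/-- Is the label `w` invalid for the letter `a`? -/
def bad (a : B3) (w : Bool) : Bool := if w then a 0 else (!a 0 && a 1)

lemma supp_valid : ∀ a b : B3, supp (a, b) = true →
    bad a (if b 0 then b 1 else a 1) = false := by
  decide

/-- The number of letters `a` compatible with `b`, as a real number. -/
noncomputable def cnt (b : B3) : ℝ := ∑ a : B3, (if supp (a, b) then (1 : ℝ) else 0)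

lemma cnt_eq (b : B3) : cnt b = ((univ.filter (fun a : B3 => supp (a, b) = true)).card : ℝ) := by
  unfold cnt
  rw [Finset.sum_boole]

lemma cnt_ya1 : cnt ya1 = 1 := by
  rw [cnt_eq, show (univ.filter (fun a : B3 => supp (a, ya1) = true)).card = 1 by decide]
  norm_num
lemma cnt_yc1 : cnt yc1 = 1 := by
  rw [cnt_eq, show (univ.filter (fun a : B3 => supp (a, yc1) = true)).card = 1 by decide]
  norm_num
lemma cnt_yb2 : cnt yb2 = 1 := by
  rw [cnt_eq, show (univ.filter (fun a : B3 => supp (a, yb2) = true)).card = 1 by decide]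
  norm_num
lemma cnt_yc2 : cnt yc2 = 1 := by
  rw [cnt_eq, show (univ.filter (fun a : B3 => supp (a, yc2) = true)).card = 1 by decide]
  norm_num
lemma cnt_ye : cnt ye = 2 := by
  rw [cnt_eq, show (univ.filter (fun a : B3 => supp (a, ye) = true)).card = 2 by decide]
  norm_num

lemma sum_cnt : ∑ z : B3 × B3, mu0 z * cnt z.2 = 1 + eps := by
  rw [sum_mu0]
  simp only [cnt_ya1, cnt_yc1, cnt_yb2, cnt_yc2, cnt_ye]
  ring

/-- Vectors of letters. -/
abbrev V (n : ℕ) : Type := Fin n → B3

/-- Compatible pairs of vectors. -/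
def suppN {n : ℕ} (z y : V n) : Prop := ∀ i, supp (z i, y i) = true

instance {n : ℕ} (z y : V n) : Decidable (suppN z y) := by unfold suppN; infer_instance

/-- Bob's guess for Alice's vector. -/
noncomputable def guess {n k : ℕ} (h : V n → Fin k → Bool) (v : Fin k → Bool) (y : V n) : V n :=
  open Classical in
  if hz : ∃ z, suppN z y ∧ h z = v then hz.choose else fun _ => xc

/-- The labels Bob sends. -/
noncomputable def lab {n k : ℕ} (h : V n → Fin k → Bool) (v : Fin k → Bool) (y : V n) :
    Fin n → Bool :=
  fun i => if y i 0 then y i 1 else (guess h v y) i 1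

/-- Is some label invalid? -/
def anyBad {n : ℕ} (w : Fin n → Bool) (x : V n) : Bool := decide (∃ i, bad (x i) (w i) = true)

/-- Coding of a vector by bits. -/
def enc {n : ℕ} (x : V n) : Fin (n * 3) → Bool :=
  fun j => x (finProdFinEquiv.symm j).1 (finProdFinEquiv.symm j).2

/-- Decoding. -/
def dec {n : ℕ} (v : Fin (n * 3) → Bool) : V n := fun i j => v (finProdFinEquiv (i, j))

lemma dec_enc {n : ℕ} (x : V n) : dec (enc x) = x := by
  funext i j
  simp [dec, enc]

/-- The trivial protocol. -/
def fallback (n : ℕ) : Prot (V n) (V n) (Fin n → Bool) :=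
  sendA (n * 3) enc (fun v => sendB n (fun y => powFun F0 n (dec v) y) (fun w => .out w))

/-- The protocol. -/
noncomputable def theProt {n k : ℕ} (h : V n → Fin k → Bool) : Prot (V n) (V n) (Fin n → Bool) :=
  sendA k h (fun v => sendB n (lab h v) (fun w =>
    .alice (fun x => bitI (anyBad w x)) (.out (fun _ => false)) (fallback n)))

lemma fallback_correct (n : ℕ) (x y : V n) : (fallback n).Correct x y (powFun F0 n x y) := by
  apply correct_sendA
  apply correct_sendB
  rw [dec_enc]
  exact correct_out _ _ _

lemma fallback_avg (n : ℕ) (x y : V n) : (fallback n).avg x y = 4 * n := by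
  unfold fallback
  rw [avg_sendA, avg_sendB, avg_out]
  push_cast; ring

lemma fallback_det (n : ℕ) : (fallback n).Deterministic :=
  det_sendA _ _ _ fun _ => det_sendB _ _ _ fun _ => trivial

lemma theProt_det {n k : ℕ} (h : V n → Fin k → Bool) : (theProt h).Deterministic :=
  det_sendA _ _ _ fun _ => det_sendB _ _ _ fun _ =>
    ⟨fun _ => bitI_det _, trivial, fallback_det n⟩

lemma theProt_correct {n k : ℕ} (h : V n → Fin k → Bool) (x y : V n) :
    (theProt h).Correct x y (powFun F0 n x y) := by
  apply correct_sendA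
  apply correct_sendB
  apply correct_alice (f := anyBad (lab h (h x) y))
  · intro hb
    have hb' : ∀ i, bad (x i) (lab h (h x) y i) = false := by
      intro i
      unfold anyBad at hb
      simp only [decide_eq_false_iff_not, not_exists, Bool.not_eq_true] at hb
      exact hb i
    have : powFun F0 n x y = fun _ => false := by
      funext i
      unfold powFun F0
      have hi := hb' i
      unfold lab at hi
      cases hy : y i 0 with
      | false => simp
      | true =>
        rw [hy] at hi
        simp only [if_true] at hi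
        unfold bad at hi
        rw [hi]; rfl
    rw [this]
    exact correct_out _ _ _
  · intro _
    exact fallback_correct n x y

lemma theProt_zeroError {n k : ℕ} (h : V n → Fin k → Bool) :
    (theProt h).ZeroError (powFun F0 n) := fun x y => theProt_correct h x y

/-- The number of collisions, as a real number. -/
noncomputable def coll {n k : ℕ} (h : V n → Fin k → Bool) (x y : V n) : ℝ :=
  ∑ z : V n, (if suppN z y then (1 : ℝ) else 0) * (if z = x then 0 else
    (if h z = h x then (1 : ℝ) else 0))

lemma coll_nonneg {n k : ℕ} (h : V n → Fin k → Bool) (x y : V n) : 0 ≤ coll h x y := by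
  unfold coll
  positivity

lemma theProt_avg {n k : ℕ} (h : V n → Fin k → Bool) (x y : V n) (hxy : suppN x y) :
    (theProt h).avg x y ≤ k + n + 1 + 4 * n * coll h x y := by
  unfold theProt
  rw [avg_sendA, avg_sendB, avg_bitA]
  cases hb : anyBad (lab h (h x) y) x with
  | false =>
    simp only [Bool.false_eq_true, if_false]
    rw [avg_out]
    have := coll_nonneg h x y
    have : 0 ≤ 4 * (n : ℝ) * coll h x y := by positivity
    linarith
  | true =>
    simp only [if_true]
    rw [fallback_avg]
    have hex : ∃ z, suppN z y ∧ h z = h x := ⟨x, hxy, rfl⟩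
    have hg : suppN (guess h (h x) y) y ∧ h (guess h (h x) y) = h x := by
      unfold guess
      rw [dif_pos hex]
      exact hex.choose_spec
    have hne : guess h (h x) y ≠ x := by
      intro heq
      unfold anyBad at hb
      simp only [decide_eq_true_eq] at hb
      obtain ⟨i, hi⟩ := hb
      unfold lab at hi
      rw [heq] at hi
      rw [supp_valid (x i) (y i) (hxy i)] at hi
      exact absurd hi (by decide)
    have h1 : 1 ≤ coll h x y := by
      unfold coll
      have h2 := Finset.single_le_sum (s := univ) (f := fun z : V n =>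
        (if suppN z y then (1 : ℝ) else 0) * (if z = x then 0 else
          (if h z = h x then (1 : ℝ) else 0))) (fun z _ => by positivity)
        (Finset.mem_univ (guess h (h x) y))
      refine le_trans ?_ h2
      simp only [if_pos hg.1, if_neg hne, if_pos hg.2]
      norm_num
    have h3 : (0 : ℝ) ≤ 4 * n := by positivity
    nlinarith

lemma powLaw_nonneg (n : ℕ) (z : V n × V n) : 0 ≤ powLaw mu0 n z :=
  Finset.prod_nonneg fun i _ => mu0_nonneg _

lemma powLaw_ne_zero {n : ℕ} {z : V n × V n} (h : powLaw mu0 n z ≠ 0) : suppN z.1 z.2 := by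
  intro i
  apply supp_of_mu0
  intro h0
  exact h (Finset.prod_eq_zero (Finset.mem_univ i) h0)

/-- Sums of products over pairs of vectors. -/
lemma sum_powLaw (n : ℕ) (g : B3 × B3 → ℝ) :
    ∑ z : V n × V n, ∏ i, g (z.1 i, z.2 i) = (∑ w, g w) ^ n := by
  rw [Fintype.sum_pow]
  rw [← (Equiv.arrowProdEquivProdArrow (Fin n) (fun _ => B3) (fun _ => B3)).sum_comp]
  rfl

lemma powLaw_sum_one (n : ℕ) : ∑ z, powLaw mu0 n z = 1 := by
  unfold powLaw
  rw [sum_powLaw n mu0, mu0_sum_one, one_pow]

/-- The number of compatible vectors. -/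
lemma sum_suppN {n : ℕ} (y : V n) :
    ∑ z : V n, (if suppN z y then (1 : ℝ) else 0) = ∏ i, cnt (y i) := by
  unfold cnt
  rw [Finset.prod_univ_sum]
  simp only [Fintype.piFinset_univ]
  refine Finset.sum_congr rfl fun z _ => ?_
  rw [Finset.prod_ite_zero]
  simp [suppN]

lemma sum_powLaw_suppN (n : ℕ) :
    ∑ z : V n × V n, powLaw mu0 n z * ∑ w : V n, (if suppN w z.2 then (1 : ℝ) else 0)
      = (1 + eps) ^ n := by
  rw [← sum_cnt, ← sum_powLaw n (fun w => mu0 w * cnt w.2)]
  refine Finset.sum_congr rfl fun z _ => ?_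
  rw [sum_suppN, Finset.prod_mul_distrib]
  rfl

/-- The averaged collision count. -/
lemma sum_coll {n k : ℕ} (x y : V n) :
    (∑ h : V n → Fin k → Bool, coll h x y) * 2 ^ k ≤
      Fintype.card (V n → Fin k → Bool) * ∑ w : V n, (if suppN w y then (1 : ℝ) else 0) := by
  unfold coll
  rw [Finset.sum_comm, Finset.sum_mul, Finset.mul_sum]
  refine Finset.sum_le_sum fun z _ => ?_
  rw [← Finset.mul_sum]
  by_cases hz : z = x
  · simp only [hz, if_true, Finset.sum_const_zero, mul_zero, zero_mul]
    positivity
  · simp only [hz, if_false]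
    have h1 := hash_count (S := V n) (R := Fin k → Bool) (z := z) (x := x) (Ne.symm hz)
    have h2 : (Fintype.card (Fin k → Bool) : ℝ) = 2 ^ k := by simp
    rw [h2] at h1
    rw [mul_assoc, h1, mul_comm]

theorem exists_prot (n k : ℕ) : ∃ π : Prot (V n) (V n) (Fin n → Bool),
    π.Deterministic ∧ π.ZeroError (powFun F0 n) ∧
      expBits π (powLaw mu0 n) ≤ k + n + 1 + 4 * n * ((1 + eps) ^ n / 2 ^ k) := by
  have hcard : (0 : ℝ) < Fintype.card (V n → Fin k → Bool) := by
    have : 0 < Fintype.card (V n → Fin k → Bool) := Fintype.card_pos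
    exact_mod_cast this
  have h2k : (0 : ℝ) < 2 ^ k := by positivity
  have hle : ∑ h : V n → Fin k → Bool, ∑ z : V n × V n, powLaw mu0 n z *
      (k + n + 1 + 4 * n * coll h z.1 z.2) ≤
      ∑ _h : V n → Fin k → Bool, ((k : ℝ) + n + 1 + 4 * n * ((1 + eps) ^ n / 2 ^ k)) := by
    rw [Finset.sum_comm]
    have e1 : ∀ z : V n × V n, ∑ h : V n → Fin k → Bool, powLaw mu0 n z *
        (k + n + 1 + 4 * n * coll h z.1 z.2) ≤ powLaw mu0 n z *
        (Fintype.card (V n → Fin k → Bool) * (k + n + 1)) +
        Fintype.card (V n → Fin k → Bool) * (4 * n / 2 ^ k) * (powLaw mu0 n z *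
          ∑ w : V n, (if suppN w z.2 then (1 : ℝ) else 0)) := by
      intro z
      have h1 := sum_coll (n := n) (k := k) z.1 z.2
      rw [← le_div_iff₀ h2k] at h1
      have h0 := powLaw_nonneg n z
      rw [← Finset.mul_sum, Finset.sum_add_distrib, Finset.sum_const, Finset.card_univ,
        nsmul_eq_mul, ← Finset.mul_sum, mul_add]
      have h3 : 4 * (n : ℝ) * ∑ h : V n → Fin k → Bool, coll h z.1 z.2 ≤ 4 * n *
          ((Fintype.card (V n → Fin k → Bool) * ∑ w : V n, (if suppN w z.2 then (1 : ℝ) else 0))
            / 2 ^ k) := mul_le_mul_of_nonneg_left h1 (by positivity)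
      have h4 := mul_le_mul_of_nonneg_left h3 h0
      refine le_trans (add_le_add le_rfl h4) (le_of_eq ?_)
      ring
    refine le_trans (Finset.sum_le_sum fun z _ => e1 z) (le_of_eq ?_)
    rw [Finset.sum_add_distrib, ← Finset.sum_mul, ← Finset.mul_sum, powLaw_sum_one,
      sum_powLaw_suppN, Finset.sum_const, Finset.card_univ, nsmul_eq_mul]
    ring
  obtain ⟨h, -, hh⟩ := Finset.exists_le_of_sum_le (Finset.univ_nonempty) hle
  refine ⟨theProt h, theProt_det h, theProt_zeroError h, le_trans ?_ hh⟩
  rw [expBits_eq]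
  refine Finset.sum_le_sum fun z _ => ?_
  by_cases hz : powLaw mu0 n z = 0
  · rw [hz, zero_mul, zero_mul]
  · exact mul_le_mul_of_nonneg_left (theProt_avg h z.1 z.2 (powLaw_ne_zero hz))
      (powLaw_nonneg n z)

end Pool.Agent.Helper435.EIC
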